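import Pool.Agent.Helper42.GW.St
import Pool.Agent.Helper13.GP.Comb
import Pool.Agent.Helper96.GPL.Seg

/-!
# Gilbert-Pollak, chapter COR, word rules: module wMark
-/

set_option autoImplicit false

namespace Pool.Agent.Helper44.GW

open Pool.Agent.Helper18.GP Pool.Agent.Helper62.GP Pool.Agent.Helper42.GW Relation Classical
open Pool.Agent.Helper13.GP Pool.Agent.Helper96.GPL

/-- splitting of a list described by an appended word -/
theorem forall₂_split {α β : Type*} {R : α → β → Prop} : ∀ {A B : List β} {l : List α},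
    List.Forall₂ R l (A ++ B) → ∃ l1 l2, l = l1 ++ l2 ∧ List.Forall₂ R l1 A ∧ List.Forall₂ R l2 B
  | [], _, l, h => ⟨[], l, rfl, List.Forall₂.nil, h⟩
  | a :: A, B, l, h => by
      rw [List.cons_append] at h
      cases h with
      | cons h1 h2 =>
        obtain ⟨l1, l2, rfl, h3, h4⟩ := forall₂_split h2
        exact ⟨_ :: l1, l2, rfl, List.Forall₂.cons h1 h3, h4⟩

/-- transport of a description, with membership -/
theorem forall₂_mem {α β γ : Type*} {R : α → β → Prop} {S : α → γ → Prop} {f : β → γ}
    {l : List α} {w : List β} (h : List.Forall₂ R l w)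
    (h2 : ∀ a ∈ l, ∀ b ∈ w, R a b → S a (f b)) : List.Forall₂ S l (w.map f) := by
  induction h with
  | nil => exact List.Forall₂.nil
  | cons h3 _ ih =>
    rw [List.map_cons]
    refine List.Forall₂.cons (h2 _ (by simp) _ (by simp) h3) (ih ?_)
    intro a ha b hb hr
    exact h2 a (List.mem_cons_of_mem _ ha) b (List.mem_cons_of_mem _ hb) hr

variable {N : ℕ}

theorem chain_of {V : Finset (Fin N)} {G : SimpleGraph (Fin N)} (h : IsTri V G) :
    ∀ (l2 l1 : List (Fin N)), (l1 ++ l2).Pairwise (· < ·) → (∀ v, v ∈ l1 ++ l2 ↔ v ∈ V) →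
      List.IsChain G.Adj l2
  | [], _, _, _ => List.IsChain.nil
  | [_], _, _, _ => List.IsChain.singleton _
  | x :: y :: l, l1, hp, hm => by
      rw [List.isChain_cons_cons]
      refine ⟨?_, chain_of h (y :: l) (l1 ++ [x]) (by simpa using hp) (by simpa using hm)⟩
      have hx : x ∈ V := (hm x).1 (by simp)
      have hy : y ∈ V := (hm y).1 (by simp)
      rw [List.pairwise_append] at hp
      obtain ⟨_, hp2, hp3⟩ := hp
      rw [List.pairwise_cons, List.pairwise_cons] at hp2
      obtain ⟨hp4, hp5, _⟩ := hp2
      have hxy : x < y := hp4 y (by simp)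
      apply bdAdj N V G h
      refine ⟨hx, hy, hxy.ne, Or.inl ?_⟩
      intro v hv hc
      rw [Ccw_iff] at hc
      have hxy' : x.val < y.val := hxy
      have hv' := (hm v).2 hv
      rw [List.mem_append, List.mem_cons, List.mem_cons] at hv'
      rcases hv' with hv' | rfl | rfl | hv'
      · have : v.val < x.val := hp3 v hv' x (by simp)
        omega
      · omega
      · omega
      · have : y.val < v.val := hp5 v hv'
        omega

theorem Ln_pair {V : Finset (Fin N)} {G : SimpleGraph (Fin N)} {P : Fin N → ℂ} (m : MetP V G P)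
    {a b : Fin N} (ha : a ∈ V) (hb : b ∈ V) (h : G.Adj a b) :
    Ln V G P {a, b} ≤ ‖P a - P b‖ := by
  have h1 : Ln V G P {a, b} ≤ nlen (dK V G P) [(dl a, dl b)] := by
    apply Ln_le m
    · intro e he
      rw [List.mem_singleton] at he
      subst he
      exact ⟨dl_mem G ha, dl_mem G hb⟩
    · have hab : EqvGen (fun x y : Fin N → ℝ => (x, y) ∈ [((dl a : Fin N → ℝ), (dl b : Fin N → ℝ))])
          (dl a) (dl b) := EqvGen.rel _ _ (by simp)
      rintro _ ⟨x, hx, rfl⟩ _ ⟨y, hy, rfl⟩
      rw [Finset.mem_coe, Finset.mem_insert, Finset.mem_singleton] at hx hy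
      rcases hx with rfl | rfl <;> rcases hy with rfl | rfl
      · exact EqvGen.refl _
      · exact hab
      · exact EqvGen.symm _ _ hab
      · exact EqvGen.refl _
  refine h1.trans (le_of_eq ?_)
  rw [nlen_cons, dK_edge m ha hb h]
  simp [nlen]

theorem Ln_path {V : Finset (Fin N)} {G : SimpleGraph (Fin N)} {P : Fin N → ℂ} (m : MetP V G P)
    (n : LnP V G P) : ∀ (l : List (Fin N)) (b : Fin N), b ∈ V → (∀ x ∈ l, x ∈ V) →
      List.IsChain G.Adj (b :: l) →
      Ln V G P (insert b l.toFinset) ≤ plen (P b :: l.map P)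
  | [], b, hb, _, _ => by
      have : (insert b ([] : List (Fin N)).toFinset) = {b} := by simp
      rw [this, n.sing b hb]
      simp [plen]
  | x :: l, b, hb, hl, hc => by
      rw [List.isChain_cons_cons] at hc
      have hx : x ∈ V := hl x (by simp)
      have ih := Ln_path m n l x hx (fun y hy => hl y (List.mem_cons_of_mem _ hy)) hc.2
      have h1 : insert b (x :: l).toFinset = {b, x} ∪ insert x l.toFinset := by
        ext y
        simp only [List.toFinset_cons, Finset.mem_insert, Finset.mem_union, Finset.mem_singleton,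
          List.mem_toFinset]
        tauto
      have hs1 : ({b, x} : Finset (Fin N)) ⊆ V := by
        intro y hy
        rw [Finset.mem_insert, Finset.mem_singleton] at hy
        rcases hy with rfl | rfl <;> assumption
      have hs2 : insert x l.toFinset ⊆ V := by
        intro y hy
        rw [Finset.mem_insert, List.mem_toFinset] at hy
        rcases hy with rfl | hy
        · exact hx
        · exact hl y (List.mem_cons_of_mem _ hy)
      rw [h1]
      refine (n.sub _ hs1 _ hs2 ⟨x, by simp⟩).trans ?_
      have h2 := Ln_pair m hb hx hc.1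
      rw [List.map_cons]
      show _ ≤ ‖P b - P x‖ + plen (P x :: l.map P)
      linarith

theorem wMark_thm (hMet : stMet) (hLn : stLnP) : wMark := by
  intro A R q c₁ hA hn hQ
  obtain ⟨N, V, G, P, B₁, B₂, hT, hS, hB₁, hB₂, hF, hc₁, hc₂⟩ := hQ
  have m := hMet N V G P hT
  have n := hLn N V G P hT
  obtain ⟨l1, lb, hl, h12, h3⟩ := forall₂_split hF
  obtain ⟨lA, lR, rfl, h1, h2⟩ := forall₂_split h12
  obtain ⟨b, rfl, hb⟩ : ∃ b, lb = [b] ∧ OKI V G P B₁ B₂ b q := by
    cases h3 with
    | cons h4 h5 =>
      cases h5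
      exact ⟨_, rfl, h4⟩
  have hmem : ∀ v, v ∈ lA ++ lR ++ [b] ↔ v ∈ V := by
    intro v
    rw [← hl, Finset.mem_sort]
  have hpw : (lA ++ lR ++ [b]).Pairwise (· < ·) := by
    rw [← hl]
    exact (Finset.sortedLT_sort V).pairwise
  have hch := chain_of hT (lA ++ lR ++ [b]) [] (by simpa using hpw) (by simpa using hmem)
  have hbV : b ∈ V := (hmem b).1 (by simp)
  have hAV : ∀ x ∈ lA, x ∈ V := fun x hx => (hmem x).1 (by simp [hx])
  have hpA := List.pairwise_append.1 hpw
  have hpB := List.pairwise_append.1 hpA.1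
  -- the first vertex
  have hchA : List.IsChain G.Adj (b :: lA) := by
    obtain ⟨x, lA', rfl⟩ : ∃ x lA', lA = x :: lA' := by
      cases lA with
      | nil =>
        cases h1
        exact absurd rfl hA
      | cons x lA' => exact ⟨x, lA', rfl⟩
    rw [List.isChain_cons_cons]
    refine ⟨?_, ?_⟩
    · have hx : x ∈ V := hAV x (by simp)
      have hxb : x < b := hpA.2.2 x (by simp) b (by simp)
      apply bdAdj N V G hT
      refine ⟨hbV, hx, hxb.ne', Or.inl ?_⟩
      intro v hv hc
      rw [Ccw_iff] at hc
      have hxb' : x.val < b.val := hxb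
      have h5 : v.val ≤ b.val := by
        have hv' := (hmem v).2 hv
        rw [List.mem_append, List.mem_singleton] at hv'
        rcases hv' with hv' | rfl
        · exact le_of_lt (hpA.2.2 v hv' b (by simp))
        · exact le_rfl
      have h6 : x.val ≤ v.val := by
        have hv' := (hmem v).2 hv
        rw [List.cons_append, List.cons_append, List.mem_cons] at hv'
        rcases hv' with rfl | hv'
        · exact le_rfl
        · rw [List.cons_append, List.cons_append, List.pairwise_cons] at hpw
          exact le_of_lt (hpw.1 v hv')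
      omega
    · rw [List.append_assoc] at hch
      exact hch.left_of_append
  have hp1 : P b = q.p := hb.1
  have hp2 : lA.map P = A.map It.p := by
    clear hch hchA hAV hpA hpB hpw hmem hl hF h12 hA hn
    induction h1 with
    | nil => rfl
    | cons h5 _ ih => rw [List.map_cons, List.map_cons, ih, h5.1]
  refine ⟨N, V, G, P, B₁, insert b lA.toFinset, hT, hS, hB₁, ?_, ?_, hc₁, ?_⟩
  · intro y hy
    rw [Finset.mem_insert, List.mem_toFinset] at hy
    rcases hy with rfl | hy
    · exact hbV
    · exact hAV y hy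
  · rw [hl]
    refine List.rel_append (List.rel_append ?_ ?_) ?_
    · refine forall₂_mem h1 ?_
      intro a ha i _ hr
      refine ⟨hr.1, hr.2.1, hr.2.2.1, ?_⟩
      simp [ha]
    · have h4 : List.Forall₂ (OKI V G P B₁ (insert b lA.toFinset)) lR (R.map id) := by
        refine forall₂_mem h2 ?_
        intro a ha i hi hr
        refine ⟨hr.1, hr.2.1, hr.2.2.1, ?_⟩
        have h5 : i.n = false := hn i (by simp [hi])
        have h6 : a < b := hpA.2.2 a (by simp [ha]) b (by simp)
        have h7 : a ∉ lA := fun h8 => absurd (hpB.2.2 a h8 a ha) (lt_irrefl _)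
        simp [h5, h6.ne, h7]
      rwa [List.map_id] at h4
    · refine List.Forall₂.cons ⟨hb.1, hb.2.1, hb.2.2.1, ?_⟩ List.Forall₂.nil
      simp
  · rw [← hp1, ← hp2]
    exact Ln_path m n lA b hbV hAV hchA

end Pool.Agent.Helper44.GW
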